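import Pool.Agent.MWNP.Stmts

/-!
# Squad MWNP (MP_23468a_al), row P1A: clause c1 without `D 0`
-/

set_option autoImplicit false

namespace Pool.Agent.MWNP.H59

open Pool.Agent.Helper14_MV Pool.Agent.Helper2_MV Pool.Agent.MVO Pool.Agent.MWL Pool.Agent.MWS
  Pool.Agent.MWF Pool.Agent.MWN

/-- two blocks -/
def b2 (p q : List ℕ) : ℕ → List ℕ := fun j => if j = 0 then p else if j = 1 then q else []

theorem ok_of (w : List ℕ) (hw : w = [1, 1, 0] ∨ w = [0, 1, 1] ∨ w = [1, 0, 1]) :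
    OkB 1 (b2 w [0, 0]) ∧ Two01 1 (b2 w [0, 0]) ∧
      (∀ j, ty (b2 w [0, 0]) 0 j = v2 1 2 j) ∧ (∀ j, ty (b2 w [0, 0]) 1 j = v2 2 0 j) := by
  have h0 : ∀ j, ty (b2 w [0, 0]) 0 j = v2 1 2 j := by
    intro j
    unfold ty b2 v2
    rcases hw with rfl | rfl | rfl <;> split_ifs <;> rfl
  have h1 : ∀ j, ty (b2 w [0, 0]) 1 j = v2 2 0 j := by
    intro j
    unfold ty b2 v2
    rcases hw with rfl | rfl | rfl <;> split_ifs <;> rfl
  have h2 : Two01 1 (b2 w [0, 0]) := by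
    intro j _ c hc
    unfold b2 at hc
    rcases hw with rfl | rfl | rfl <;> split_ifs at hc <;> simp at hc <;> omega
  refine ⟨⟨?_, ?_⟩, h2, h0, h1⟩
  · intro j hj c hc
    have := h2 j hj c hc
    unfold NS
    omega
  · intro j hj c hc
    rcases h2 j hj c hc with rfl | rfl
    · have e : deg 1 (ty (b2 w [0, 0]) 0) = deg 1 (v2 1 2) := by
        unfold deg
        exact Finset.sum_congr rfl fun i _ => h0 i
      have e2 : deg 1 (v2 1 2) = 3 := rfl
      have e3 : 2 ≤ deg 1 (ty (b2 w [0, 0]) 0) := by rw [e, e2]; norm_num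
      exact e3
    · have e : deg 1 (ty (b2 w [0, 0]) 1) = deg 1 (v2 2 0) := by
        unfold deg
        exact Finset.sum_congr rfl fun i _ => h1 i
      have e2 : deg 1 (v2 2 0) = 2 := rfl
      have e3 : 2 ≤ deg 1 (ty (b2 w [0, 0]) 1) := by rw [e, e2]
      exact e3

theorem wo_eq (w : List ℕ) (hw : w = [1, 1, 0] ∨ w = [0, 1, 1] ∨ w = [1, 0, 1]) (j : ℕ) :
    wo 1 (ty (b2 w [0, 0]) 1) j = v2 2 0 j := by
  unfold wo
  by_cases h : j = 1
  · rw [if_pos h, h]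
    rfl
  · rw [if_neg h]
    exact (ok_of w hw).2.2.2 j

/-- the states collapse if `E` holds -/
theorem key (pco : PcoStmt) {n : ℕ} {β : FIC} (hβ : HBP n β) (hI : Iso3 β) (hE : Op n β Bit.E) (w : List ℕ)
    (hw : w = [1, 1, 0] ∨ w = [0, 1, 1] ∨ w = [1, 0, 1]) :
    RR β (asm 1 (b2 w [0, 0])) (asm 1 (b2 [1, 0, 1] [0, 0])) := by
  obtain ⟨o1, o2, o3, o4⟩ := ok_of w hw
  obtain ⟨p1, p2, p3, p4⟩ := ok_of [1, 0, 1] (Or.inr (Or.inr rfl))
  have hdeg : ∀ w' : List ℕ, (w' = [1, 1, 0] ∨ w' = [0, 1, 1] ∨ w' = [1, 0, 1]) →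
      2 ≤ deg 1 (wo 1 (ty (b2 w' [0, 0]) 1)) := by
    intro w' hw'
    have e : deg 1 (wo 1 (ty (b2 w' [0, 0]) 1)) = deg 1 (v2 2 0) := by
      unfold deg
      exact Finset.sum_congr rfl fun i _ => wo_eq w' hw' i
    have e2 : deg 1 (v2 2 0) = 2 := rfl
    rw [e, e2]
  refine pco n β hβ hI 1 _ _ 1 0 1 o1 p1 o2 p2 (fun j _ => Or.inl ?_) (fun j _ => Or.inl ?_)
    (Or.inr ⟨rfl, rfl⟩) (by norm_num) ?_ (hdeg w hw) (hdeg _ (Or.inr (Or.inr rfl))) ?_
  · rw [o3, p3]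
  · rw [o4, p4]
  · change 0 ∈ [0, 0]
    exact List.mem_cons_self
  · refine (FC.ofFIC β).ext (a := v2 2 0) (b := ad n (v2 2 0) 1) ?_ ?_ hE
    · intro j _
      exact (wo_eq w hw j).symm
    · intro j _
      unfold ad
      rw [wo_eq w hw j]

theorem app0 {β : FIC} {u v : List ℕ} (h : RR β u v) : RR β (u ++ [0]) (v ++ [0]) :=
  h.append (RR.refl (β := β) [0])

/-- `C1` from `E` -/
theorem c1_of_E (pco : PcoStmt) {n : ℕ} {β : FIC} (hβ : HBP n β) (hI : Iso3 β) (hE : Op n β Bit.E)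
    (st : Bool) : C1 β st := by
  cases st with
  | false =>
    have h := key pco hβ hI hE [0, 1, 1] (Or.inr (Or.inl rfl))
    have e1 : asm 1 (b2 [0, 1, 1] [0, 0]) = [0, 1, 1, 2, 0, 0] := by decide
    have e2 : asm 1 (b2 [1, 0, 1] [0, 0]) = [1, 0, 1, 2, 0, 0] := by decide
    rw [e1, e2] at h
    exact h
  | true =>
    have h := key pco hβ hI hE [1, 1, 0] (Or.inl rfl)
    have e1 : asm 1 (b2 [1, 1, 0] [0, 0]) = [1, 1, 0, 2, 0, 0] := by decide
    have e2 : asm 1 (b2 [1, 0, 1] [0, 0]) = [1, 0, 1, 2, 0, 0] := by decide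
    rw [e1, e2] at h
    exact h

/-- **P1A** -/
theorem p1a (pph : PphStmt) (pcx : PcxStmt) (pco : PcoStmt) : P1aStmt := by
  intro n β hβ hI hM hD st
  by_contra hC
  have hE : ¬ Op n β Bit.E := fun h => hC (c1_of_E pco hβ hI h st)
  have c1 : Clo β 1 (cd2 Cd.one Cd.one) := by
    refine pcx n β hβ hI [8] 1 _ ?_ (by decide +kernel)
    intro x hx
    exact Or.inl (List.mem_singleton.1 hx)
  have c2 : Clo β 1 (cd2 Cd.two Cd.z) := by
    refine pcx n β hβ hI [8, 0] 1 _ ?_ (by decide +kernel)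
    intro x hx
    simp only [List.mem_cons, List.not_mem_nil, or_false] at hx
    rcases hx with rfl | rfl
    · exact Or.inl rfl
    · exact Or.inr (Or.inl ⟨rfl, hE⟩)
  have c3 : Clo β 1 (cd2 Cd.one Cd.pos) := by
    refine pcx n β hβ hI [8, 3] 1 _ ?_ (by decide +kernel)
    intro x hx
    simp only [List.mem_cons, List.not_mem_nil, or_false] at hx
    rcases hx with rfl | rfl
    · exact Or.inl rfl
    · exact Or.inr (Or.inr (Or.inr (Or.inr (Or.inl ⟨rfl, hD⟩))))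
  have hp := pph n β hβ hI hM 1 0 (cd2 Cd.one Cd.one) (cd2 Cd.two Cd.z)
    (cd2 Cd.one Cd.pos) (cd2 Cd.two Cd.z) st (v2 1 2) (v2 1 1) (v2 2 0)
    (v2 2 0) (by decide +kernel) (by decide) (by decide) (by decide) (by decide) c1 c2 c3 c2
  cases st with
  | false =>
    rcases hp with h | h
    · have e1 : asm 1 (cs 0 (cd2 Cd.one Cd.one) (cd2 Cd.two Cd.z) false) =
          [0, 1, 1, 2, 0] := by decide
      have e2 : asm 1 (cn 0 (cd2 Cd.one Cd.one) (cd2 Cd.two Cd.z) false) =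
          [1, 0, 1, 2, 0] := by decide
      rw [e1, e2] at h
      exact hC (app0 h)
    · have e1 : asm 1 (cs 0 (cd2 Cd.one Cd.pos) (cd2 Cd.two Cd.z) false) =
          [0, 1, 1, 2, 0, 0] := by decide
      have e2 : asm 1 (cn 0 (cd2 Cd.one Cd.pos) (cd2 Cd.two Cd.z) false) =
          [1, 0, 1, 2, 0, 0] := by decide
      rw [e1, e2] at h
      exact hC h
  | true =>
    rcases hp with h | h
    · have e1 : asm 1 (cs 0 (cd2 Cd.one Cd.one) (cd2 Cd.two Cd.z) true) =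
          [1, 1, 0, 2, 0] := by decide
      have e2 : asm 1 (cn 0 (cd2 Cd.one Cd.one) (cd2 Cd.two Cd.z) true) =
          [1, 0, 1, 2, 0] := by decide
      rw [e1, e2] at h
      exact hC (app0 h)
    · have e1 : asm 1 (cs 0 (cd2 Cd.one Cd.pos) (cd2 Cd.two Cd.z) true) =
          [1, 1, 0, 2, 0, 0] := by decide
      have e2 : asm 1 (cn 0 (cd2 Cd.one Cd.pos) (cd2 Cd.two Cd.z) true) =
          [1, 0, 1, 2, 0, 0] := by decide
      rw [e1, e2] at h
      exact hC h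

end Pool.Agent.MWNP.H59
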